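import Pool.Agent.QSX.StmtsW

/-!
# Squad QSX, row FLT (helper94): from a quasi-isometric embedding to the data `Flt`
-/

set_option autoImplicit false

namespace Pool.Agent.QSX.H94

open Matrix Finset Filter Topology Pool.Agent.QSX

theorem fst_le {m : ℕ} {E : Type} [NormedAddCommGroup E] [InnerProductSpace ℝ E]
    (v : WithLp 2 (EuclideanSpace ℝ (Fin m) × E)) (i : Fin m) : |v.fst i| ≤ ‖v‖ := by
  have h1 : ‖v.fst i‖ ≤ ‖v.fst‖ := PiLp.norm_apply_le v.fst i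
  have h2 : ‖v.fst‖ ≤ ‖v‖ := WithLp.norm_fst_le _ v
  rw [Real.norm_eq_abs] at h1
  exact h1.trans h2

theorem flt (hGRP : GrpStmt) (hMDX : MdxStmt) (hFSV : FsvStmt) (hMEA : MeaStmt) (hUTS : UtsStmt)
    (hFCM : FcmStmt) (hFEX : FexStmt) (hSEQ : SeqStmt) (hTYP : TypStmt) (hHIL : HilStmt)
    (hERG : ErgStmt) (hNIN : NinStmt) (hDIF : DifStmt) (hLMP : LmpStmt) (hHVB : HvbStmt)
    (hDFN : DfnStmt) (hLEN : LenStmt) (hLUD : LudStmt) (hCGM : CgmStmt) (hGGX : GgxStmt) :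
    FltStmt := by
  intro X Y hX E _ _ f hf
  obtain ⟨⟨G, hG⟩, -⟩ := hGRP X
  obtain ⟨M, hM⟩ := hMDX hFSV hMEA hUTS hFCM hFEX X G hG
  obtain ⟨pt, d, hpt, hh, hA, hNn⟩ := hDIF X Y hX E f hf G hG
  have hcount : d.Nn.Countable := by
    rw [hNn]
    exact (hCGM X hX).preimage Subtype.val_injective
  obtain ⟨K', j, x, Q, hK', hj, hj1, hQ, hmain⟩ := hSEQ hTYP hHIL hERG hNIN G M hM
    (WithLp 2 (EuclideanSpace ℝ (Fin Y.m) × E)) X.b d hcount
  obtain ⟨L, C, hL, hC, hLC⟩ := hf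
  obtain ⟨K0, -, hhv⟩ := hHVB Y E
  have hGam : hX.Gam ≤ G := hGGX X hX G hG
  choose df hdf1 hdf2 using hDFN Y
  let S : Scale := ⟨hyperfilter ℕ, fun s => (j s : ℝ),
    (tendsto_natCast_atTop_atTop.comp hj).mono_left Nat.hyperfilter_le_atTop⟩
  have hSR : ∀ s, S.R s = (j s : ℝ) := fun s => rfl
  have hω : ∀ p : ℕ → Prop, (∀ᶠ s in atTop, p s) → ∀ᶠ s in (S.ω : Filter ℕ), p s :=
    fun p hp => Nat.hyperfilter_le_atTop hp
  have hone : ∀ s, (1 : ℝ) ≤ S.R s := fun s => by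
    rw [hSR]
    exact_mod_cast hj1 s
  let Q' : ℕ → X.b →ₗ[ℝ] (Fin Y.m → ℝ) := fun s =>
    { toFun := fun a i => (Q s a).fst i
      map_add' := by
        intro a b
        funext i
        rw [map_add]
        rfl
      map_smul' := by
        intro c a
        funext i
        rw [map_smul]
        rfl }
  have hQ' : ∀ s (a : X.b) i, Q' s a i = (Q s a).fst i := fun s a i => rfl
  obtain ⟨P, hP⟩ := hLMP (hyperfilter ℕ) X.b Y.m Q' K' (fun s a i => by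
    rw [hQ']
    exact (fst_le _ i).trans (hQ s a))
  -- the images
  let im : (n : (Matrix (Fin X.m) (Fin X.m) ℝ)ˣ) → n ∈ G → ℕ → X.b → Y.Pt × E :=
    fun n hn s a => f (pt (x s * ⟨n, hn⟩ * d.A ((j s : ℝ) • a)))
  let F : (Matrix (Fin X.m) (Fin X.m) ℝ)ˣ → ℕ → X.b → Y.Pt := fun n s a =>
    haveI := Classical.dec (n ∈ G)
    if hn : n ∈ G then df (f (pt (x s))).1 (im n hn s a).1 else (f (pt 1)).1
  have hF : ∀ n (hn : n ∈ G) s a, F n s a = df (f (pt (x s))).1 (im n hn s a).1 := by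
    intro n hn s a
    exact dif_pos hn
  have hFF : ∀ n (hn : n ∈ G) n' (hn' : n' ∈ G) s a a',
      len ((Y.mat (F n s a))⁻¹ * Y.mat (F n' s a')) = Y.dist (im n hn s a).1 (im n' hn' s a').1 := by
    intro n hn n' hn' s a a'
    rw [hF n hn, hF n' hn', ← hdf1, ← hdf1]
    unfold Dat.dist
    congr 1
    group
  have hXd : ∀ n (hn : n ∈ G) n' (hn' : n' ∈ G) s (a a' : X.b),
      X.dist (pt (x s * ⟨n, hn⟩ * d.A ((j s : ℝ) • a))) (pt (x s * ⟨n', hn'⟩ * d.A ((j s : ℝ) • a')))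
        = len ((ud (S.R s • (a : Fin X.m → ℝ)))⁻¹ * (n⁻¹ * n') * ud (S.R s • (a' : Fin X.m → ℝ))) := by
    intro n hn n' hn' s a a'
    unfold Dat.dist
    rw [← hpt, ← hpt]
    have h1 : ∀ a : X.b, ((d.A ((j s : ℝ) • a) : G) : (Matrix (Fin X.m) (Fin X.m) ℝ)ˣ) =
        ud (S.R s • (a : Fin X.m → ℝ)) := fun a => by
      rw [hA]
      rfl
    rw [← h1 a, ← h1 a']
    congr 1
    simp only [Subgroup.coe_mul]
    group
  have hD0 : ∀ p q : Y.Pt, 0 ≤ Y.dist p q := fun p q => (hLEN Y.m _ 1).1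
  have hDp : ∀ p q : Y.Pt × E, Y.dist p.1 q.1 ≤ pdist Y E p q := by
    intro p q
    unfold pdist
    apply Real.le_sqrt_of_sq_le
    nlinarith [sq_nonneg ‖p.2 - q.2‖]
  have hpD : ∀ p q : Y.Pt × E, pdist Y E p q ≤ Y.dist p.1 q.1 + ‖p.2 - q.2‖ := by
    intro p q
    unfold pdist
    rw [Real.sqrt_le_left (by have := hD0 p.1 q.1; positivity)]
    nlinarith [mul_nonneg (hD0 p.1 q.1) (norm_nonneg (p.2 - q.2))]
  have hup : ∀ n (hn : n ∈ G) n' (hn' : n' ∈ G) s (a a' : X.b),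
      len ((Y.mat (F n s a))⁻¹ * Y.mat (F n' s a')) ≤
      L * len ((ud (S.R s • (a : Fin X.m → ℝ)))⁻¹ * (n⁻¹ * n') * ud (S.R s • (a' : Fin X.m → ℝ)))
        + C := by
    intro n hn n' hn' s a a'
    rw [hFF n hn n' hn', ← hXd n hn n' hn']
    exact (hDp _ _).trans (hLC _ _).2
  have hmem : ∀ n (hn : n ∈ G), n ∈ hX.Gam → (⟨n, hn⟩ : G) ∈ d.Nn := by
    intro n hn h
    rw [hNn]
    exact h
  have haff : ∀ n ∈ hX.Gam, ∀ ε > (0 : ℝ), ∀ᶠ s in (S.ω : Filter ℕ), ∀ a : X.b, ‖a‖ ≤ 1 → ∀ i,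
      |((F n s a).2 : Fin Y.m → ℝ) i - S.R s * P a i| ≤ ε * S.R s := by
    intro n hn ε hε
    have hnG := hGam hn
    filter_upwards [hω _ (hmain ⟨n, hnG⟩ (hmem n hnG hn) (ε / 2) (by positivity)),
      hP (ε / 2) (by positivity)] with s h1 h2 a ha i
    have h3 := h1 a ha
    rw [hh, hh] at h3
    have h4 := (fst_le _ i).trans h3
    have h5 : (hv Y E (f (pt (x s * ⟨n, hnG⟩ * d.A ((j s : ℝ) • a)))) - hv Y E (f (pt (x s))) -
        (j s : ℝ) • Q s a).fst i = ((F n s a).2 : Fin Y.m → ℝ) i - (j s : ℝ) * Q' s a i := by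
      rw [hF n hnG, hdf2]
      rfl
    rw [h5] at h4
    have h6 := h2 a ha i
    have h7 : ((F n s a).2 : Fin Y.m → ℝ) i - S.R s * P a i =
        (((F n s a).2 : Fin Y.m → ℝ) i - (j s : ℝ) * Q' s a i) +
        (j s : ℝ) * (Q' s a i - P a i) := by
      rw [hSR]
      ring
    rw [h7]
    refine (abs_add_le _ _).trans ?_
    rw [abs_mul, hSR, abs_of_nonneg (Nat.cast_nonneg (j s) : (0 : ℝ) ≤ (j s : ℝ))]
    have h8 := mul_le_mul_of_nonneg_left h6 (Nat.cast_nonneg (j s) : (0 : ℝ) ≤ (j s : ℝ))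
    linarith
  have hPb1 : ∀ a : X.b, ‖a‖ ≤ 1 → P a ∈ Y.b := by
    intro a ha
    have hcl : IsClosed (Y.b : Set (Fin Y.m → ℝ)) := Submodule.closed_of_finiteDimensional _
    change P a ∈ (Y.b : Set (Fin Y.m → ℝ))
    rw [← hcl.closure_eq, Metric.mem_closure_iff]
    intro ε hε
    obtain ⟨s, hs⟩ := (haff 1 (Subgroup.one_mem _) (ε / 2) (by positivity)).exists
    have hs1 := hs a ha
    refine ⟨(S.R s)⁻¹ • ((F 1 s a).2 : Fin Y.m → ℝ), Y.b.smul_mem _ (F 1 s a).2.2, ?_⟩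
    have hR : 0 < S.R s := lt_of_lt_of_le one_pos (hone s)
    refine lt_of_le_of_lt ?_ (half_lt_self hε)
    rw [dist_comm, dist_pi_le_iff (by positivity)]
    intro i
    rw [Real.dist_eq, Pi.smul_apply, smul_eq_mul]
    have h2 : (S.R s)⁻¹ * ((F 1 s a).2 : Fin Y.m → ℝ) i - P a i =
        (S.R s)⁻¹ * (((F 1 s a).2 : Fin Y.m → ℝ) i - S.R s * P a i) := by
      field_simp
    rw [h2, abs_mul, abs_of_pos (inv_pos.2 hR)]
    calc (S.R s)⁻¹ * |((F 1 s a).2 : Fin Y.m → ℝ) i - S.R s * P a i|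
        ≤ (S.R s)⁻¹ * (ε / 2 * S.R s) := mul_le_mul_of_nonneg_left (hs1 i) (inv_pos.2 hR).le
      _ = ε / 2 := by field_simp
  have hPb : ∀ a, P a ∈ Y.b := by
    intro a
    have ht : (0 : ℝ) < 1 + ‖a‖ := by positivity
    have h1 : ‖(1 + ‖a‖)⁻¹ • a‖ ≤ 1 := by
      rw [norm_smul, norm_inv, Real.norm_of_nonneg ht.le, inv_mul_le_one₀ ht]
      linarith
    have h2 := Y.b.smul_mem (1 + ‖a‖) (hPb1 _ h1)
    rw [map_smul, smul_smul, mul_inv_cancel₀ ht.ne', one_smul] at h2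
    exact h2
  refine ⟨⟨S, hone, P, hPb, F, L, C, hL, hC, ?_, ?_, haff, ?_⟩⟩
  · intro n hn s a a'
    have hnG := hGam hn
    refine (hup n hnG n hnG s a a').trans ?_
    have h1 : len ((ud (S.R s • (a : Fin X.m → ℝ)))⁻¹ * (n⁻¹ * n) * ud (S.R s • (a' : Fin X.m → ℝ)))
        ≤ S.R s * ‖a - a'‖ := by
      have h2 : (ud (S.R s • (a : Fin X.m → ℝ)))⁻¹ * (n⁻¹ * n) * ud (S.R s • (a' : Fin X.m → ℝ)) =
          ud ((S.R s • (a' - a) : X.b) : Fin X.m → ℝ) := by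
        have h3 : ∀ a : X.b, ud (S.R s • (a : Fin X.m → ℝ)) =
            ((d.A (S.R s • a) : G) : (Matrix (Fin X.m) (Fin X.m) ℝ)ˣ) := fun a => by
          rw [hA]
          rfl
        rw [inv_mul_cancel, mul_one, inv_mul_eq_iff_eq_mul, h3, h3, ← hA, ← Subgroup.coe_mul,
          ← d.add]
        congr 2
        rw [smul_sub]
        abel
      rw [h2]
      refine (hLUD _ _).trans ?_
      rw [← Submodule.coe_norm, norm_smul, Real.norm_of_nonneg (zero_le_one.trans (hone s)),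
        norm_sub_rev]
    have := mul_le_mul_of_nonneg_left h1 (zero_le_one.trans hL)
    linarith
  · intro n hn n' hn' s a
    exact hup n (hGam hn) n' (hGam hn') s a a
  · intro n hn n' hn' ε hε
    have hnG := hGam hn
    have hnG' := hGam hn'
    filter_upwards [hω _ (hmain ⟨n, hnG⟩ (hmem n hnG hn) (ε / 2) (by positivity)),
      hω _ (hmain ⟨n', hnG'⟩ (hmem n' hnG' hn') (ε / 2) (by positivity))] with s h1 h2 a ha
    have h3 := h1 a ha
    have h4 := h2 a ha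
    rw [hh, hh] at h3 h4
    have h5 : ‖hv Y E (im n hnG s a) - hv Y E (im n' hnG' s a)‖ ≤ ε * S.R s := by
      have h6 : hv Y E (im n hnG s a) - hv Y E (im n' hnG' s a) =
          (hv Y E (im n hnG s a) - hv Y E (f (pt (x s))) - (j s : ℝ) • Q s a) -
          (hv Y E (im n' hnG' s a) - hv Y E (f (pt (x s))) - (j s : ℝ) • Q s a) := by abel
      rw [h6]
      refine (norm_sub_le _ _).trans ?_
      rw [hSR]
      have h7 := add_le_add h3 h4
      refine h7.trans (le_of_eq ?_)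
      ring
    have h8 := ((hhv (im n hnG s a) (im n' hnG' s a)).2.1).trans h5
    rw [hFF n hnG n' hnG', ← hXd n hnG n' hnG']
    have h9 := (hLC (pt (x s * ⟨n, hnG⟩ * d.A ((j s : ℝ) • a)))
      (pt (x s * ⟨n', hnG'⟩ * d.A ((j s : ℝ) • a)))).1
    have h10 := hpD (im n hnG s a) (im n' hnG' s a)
    have h11 : f (pt (x s * ⟨n, hnG⟩ * d.A ((j s : ℝ) • a))) = im n hnG s a := rfl
    have h12 : f (pt (x s * ⟨n', hnG'⟩ * d.A ((j s : ℝ) • a))) = im n' hnG' s a := rfl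
    rw [h11, h12] at h9
    linarith

end Pool.Agent.QSX.H94
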